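import Pool.Agent.W844.DO.Defs

set_option autoImplicit false

open MeasureTheory Filter Topology Set
open scoped ENNReal

namespace Pool.Agent.W924.DO

open Pool.Agent.W844.DO

/-! ### the function `rh` -/

lemma rh_eq : rh = (Ioo (1 : ℝ) 2).indicator fun y => (y - 1) ^ (-(3 : ℝ) / 4) := by
  classical
  funext y
  by_cases h : 1 < y ∧ y < 2
  · rw [indicator_of_mem (show y ∈ Ioo (1 : ℝ) 2 from h), rh, if_pos h]
  · rw [indicator_of_notMem (show y ∉ Ioo (1 : ℝ) 2 from h), rh, if_neg h]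

lemma rh_meas : Measurable rh := by
  rw [rh_eq]
  exact ((measurable_id.sub_const 1).pow_const _).indicator measurableSet_Ioo

lemma rh_nonneg (y : ℝ) : 0 ≤ rh y := by
  rw [rh_eq]
  refine indicator_nonneg (fun z hz => ?_) y
  exact Real.rpow_nonneg (by linarith [hz.1]) _

lemma rh_zero {y : ℝ} (h : y ≤ 1) : rh y = 0 := by
  rw [rh_eq, indicator_of_notMem]
  intro h1
  exact absurd h1.1 (not_lt.2 h)

lemma rh_intOn : IntegrableOn (fun y : ℝ => (y - 1) ^ (-(3 : ℝ) / 4)) (Ioo 1 2) := by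
  have h := (intervalIntegral.intervalIntegrable_rpow' (r := -(3 : ℝ) / 4) (a := 0) (b := 1)
    (by norm_num)).comp_sub_right 1
  rw [zero_add, one_add_one_eq_two,
    intervalIntegrable_iff_integrableOn_Ioo_of_le (by norm_num)] at h
  exact h

lemma rh_int : Integrable rh := by
  rw [rh_eq, integrable_indicator_iff measurableSet_Ioo]
  exact rh_intOn

lemma rh_integral : ∫ y, rh y = 4 := by
  rw [rh_eq, integral_indicator measurableSet_Ioo, ← integral_Ioc_eq_integral_Ioo,
    ← intervalIntegral.integral_of_le (by norm_num),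
    intervalIntegral.integral_comp_sub_right (fun y => y ^ (-(3 : ℝ) / 4)) 1,
    integral_rpow (Or.inl (by norm_num))]
  norm_num

lemma rh_bdd_int {f : ℝ → ℝ} (hf : Measurable f) (h : ∀ y, 0 < y → |f y| ≤ 1) :
    Integrable fun y => rh y * f y := by
  refine rh_int.mono (rh_meas.mul hf).aestronglyMeasurable (Eventually.of_forall fun y => ?_)
  rw [Real.norm_eq_abs, Real.norm_eq_abs, abs_mul]
  by_cases hy : 0 < y
  · exact mul_le_of_le_one_right (abs_nonneg _) (h y hy)
  · rw [rh_zero (by linarith)]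
    simp

/-! ### the density -/

/-- the density -/
noncomputable def dn (x : ℝ) : ℝ := if x < 0 then (-x) ^ (-(9 : ℝ) / 4) + rh (-x) else 0

/-- the density on the positive half line -/
noncomputable def G (z : ℝ) : ℝ := z ^ (-(9 : ℝ) / 4) + rh z

lemma nu_eq : nu = volume.withDensity fun x => ENNReal.ofReal (dn x) := by
  rw [nu]
  congr 1

lemma G_nonneg {z : ℝ} (hz : 0 < z) : 0 ≤ G z := add_nonneg (Real.rpow_nonneg hz.le _) (rh_nonneg z)

lemma dn_neg (z : ℝ) : dn (-z) = (Ioi (0 : ℝ)).indicator G z := by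
  by_cases h : 0 < z
  · rw [dn, if_pos (by linarith), neg_neg, indicator_of_mem (show z ∈ Ioi (0 : ℝ) from h), G]
  · rw [dn, if_neg (by linarith), indicator_of_notMem (show z ∉ Ioi (0 : ℝ) from h)]

lemma dn_eq (x : ℝ) : dn x = (Ioi (0 : ℝ)).indicator G (-x) := by rw [← dn_neg, neg_neg]

lemma G_meas : Measurable G := (measurable_id.pow_const _).add rh_meas

lemma dn_meas : Measurable dn := by
  have h : dn = fun x => (Ioi (0 : ℝ)).indicator G (-x) := funext dn_eq
  rw [h]
  exact (G_meas.indicator measurableSet_Ioi).comp measurable_neg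

lemma dno_meas : Measurable fun x => ENNReal.ofReal (dn x) :=
  ENNReal.measurable_ofReal.comp dn_meas

lemma dn_nonneg (x : ℝ) : 0 ≤ dn x := by
  rw [dn_eq]
  exact indicator_nonneg (fun z hz => G_nonneg hz) _

/-- change of variables -/
lemma integrable_dn_mul {f : ℝ → ℝ} (h : IntegrableOn (fun z => G z * f (-z)) (Ioi 0)) :
    Integrable fun x => dn x * f x := by
  rw [← integrable_indicator_iff measurableSet_Ioi] at h
  have h2 := h.comp_neg
  refine h2.congr (Eventually.of_forall fun x => ?_)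
  change (Ioi (0 : ℝ)).indicator (fun z => G z * f (-z)) (-x) = dn x * f x
  rw [indicator_mul_left, ← dn_eq, neg_neg]

lemma integral_nu (f : ℝ → ℝ) : ∫ x, f x ∂nu = ∫ z in Ioi (0 : ℝ), G z * f (-z) := by
  rw [nu_eq, integral_withDensity_eq_integral_toReal_smul dno_meas
    (Eventually.of_forall fun x => ENNReal.ofReal_lt_top), ← integral_indicator measurableSet_Ioi,
    ← integral_neg_eq_self]
  refine integral_congr_ae (Eventually.of_forall fun z => ?_)
  change (ENNReal.ofReal (dn (-z))).toReal • f (-z) = (Ioi (0 : ℝ)).indicator (fun z => G z * f (-z)) z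
  rw [ENNReal.toReal_ofReal (dn_nonneg _), dn_neg, smul_eq_mul, indicator_mul_left]

lemma rpow_int : IntegrableOn (fun z : ℝ => z ^ (-(9 : ℝ) / 4) * min 1 (z ^ 2)) (Ioi 0) := by
  have h1 : IntegrableOn (fun z : ℝ => z ^ (-(9 : ℝ) / 4) * min 1 (z ^ 2)) (Ioo 0 1) := by
    have h2 : IntegrableOn (fun z : ℝ => z ^ (-(1 : ℝ) / 4)) (Ioo 0 1) :=
      (intervalIntegral.integrableOn_Ioo_rpow_iff one_pos).2 (by norm_num)
    refine h2.congr_fun (fun z hz => ?_) measurableSet_Ioo
    have h3 : z ^ 2 ≤ 1 := by nlinarith [hz.1, hz.2]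
    change z ^ (-(1 : ℝ) / 4) = z ^ (-(9 : ℝ) / 4) * min 1 (z ^ 2)
    rw [min_eq_right h3, ← Real.rpow_natCast z 2, ← Real.rpow_add hz.1]
    norm_num
  have h2 : IntegrableOn (fun z : ℝ => z ^ (-(9 : ℝ) / 4) * min 1 (z ^ 2)) (Ici 1) := by
    rw [integrableOn_Ici_iff_integrableOn_Ioi]
    refine (integrableOn_Ioi_rpow_of_lt (a := -(9 : ℝ) / 4) (by norm_num) one_pos).congr_fun
      (fun z hz => ?_) measurableSet_Ioi
    have h3 : 1 ≤ z ^ 2 := by nlinarith [show (1 : ℝ) < z from hz]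
    change z ^ (-(9 : ℝ) / 4) = z ^ (-(9 : ℝ) / 4) * min 1 (z ^ 2)
    rw [min_eq_left h3, mul_one]
  have h3 : Ioi (0 : ℝ) = Ioo 0 1 ∪ Ici 1 := by
    ext z
    simp only [mem_Ioi, mem_union, mem_Ioo, mem_Ici]
    constructor
    · intro h
      rcases lt_or_ge z 1 with h1 | h1
      · exact Or.inl ⟨h, h1⟩
      · exact Or.inr h1
    · rintro (h | h)
      · exact h.1
      · linarith
  rw [h3]
  exact h1.union h2

lemma part1 : nu (Ici 0) = 0 := by
  rw [nu_eq, withDensity_apply _ measurableSet_Ici]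
  rw [setLIntegral_congr_fun (g := fun _ => 0) measurableSet_Ici]
  · simp
  · intro x hx
    change ENNReal.ofReal (dn x) = 0
    rw [dn, if_neg (not_lt.2 hx), ENNReal.ofReal_zero]

lemma part2 : (∫⁻ x, ENNReal.ofReal (min 1 (x ^ 2)) ∂nu) < ⊤ := by
  rw [nu_eq, lintegral_withDensity_eq_lintegral_mul _ dno_meas
    (by fun_prop)]
  have h1 : Integrable fun x => dn x * min 1 (x ^ 2) := by
    apply integrable_dn_mul
    simp only [neg_sq, G, add_mul]
    refine rpow_int.add (Integrable.integrableOn ?_)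
    refine rh_bdd_int (by fun_prop) fun y _ => ?_
    rw [abs_of_nonneg (le_min zero_le_one (sq_nonneg y))]
    exact min_le_left _ _
  have h2 := h1.lintegral_lt_top
  refine lt_of_le_of_lt (le_of_eq ?_) h2
  refine lintegral_congr fun x => ?_
  change ENNReal.ofReal (dn x) * ENNReal.ofReal (min 1 (x ^ 2)) = _
  rw [ENNReal.ofReal_mul (dn_nonneg x)]

lemma part3 : (∫⁻ x in Ioo (-1 : ℝ) 0, ENNReal.ofReal |x| ∂nu) = ⊤ := by
  rw [nu_eq, setLIntegral_withDensity_eq_setLIntegral_mul _
    dno_meas (by fun_prop) measurableSet_Ioo]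
  by_contra hne
  have h1 : IntegrableOn (fun x : ℝ => (-x) ^ (-(5 : ℝ) / 4)) (Ioo (-1) 0) := by
    refine ⟨(measurable_neg.pow_const _).aestronglyMeasurable, ?_⟩
    rw [hasFiniteIntegral_iff_norm]
    refine lt_of_le_of_lt ?_ (lt_top_iff_ne_top.2 hne)
    refine setLIntegral_mono' measurableSet_Ioo fun x hx => ?_
    change _ ≤ ENNReal.ofReal (dn x) * ENNReal.ofReal |x|
    have h0 : 0 < -x := by linarith [hx.2]
    rw [← ENNReal.ofReal_mul (dn_nonneg x)]
    apply ENNReal.ofReal_le_ofReal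
    rw [Real.norm_eq_abs, abs_of_nonneg (Real.rpow_nonneg h0.le _), dn, if_pos hx.2,
      abs_of_neg hx.2, rh_zero (by linarith [hx.1]), add_zero]
    conv_rhs => rw [← Real.rpow_one (-x)]
    rw [Real.rpow_one (-x)]
    conv_rhs => enter [2]; rw [← Real.rpow_one (-x)]
    rw [← Real.rpow_add h0]
    norm_num
  rw [← integrable_indicator_iff measurableSet_Ioo] at h1
  have h2 := h1.comp_neg
  have h3 : IntegrableOn (fun x : ℝ => x ^ (-(5 : ℝ) / 4)) (Ioo 0 1) := by
    rw [← integrable_indicator_iff measurableSet_Ioo]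
    refine h2.congr (Eventually.of_forall fun x => ?_)
    by_cases hx : x ∈ Ioo (0 : ℝ) 1
    · rw [indicator_of_mem hx]
      change (Ioo (-1 : ℝ) 0).indicator (fun x : ℝ => (-x) ^ (-(5 : ℝ) / 4)) (-x) = _
      rw [indicator_of_mem (by constructor <;> linarith [hx.1, hx.2]), neg_neg]
    · rw [indicator_of_notMem hx]
      change (Ioo (-1 : ℝ) 0).indicator (fun x : ℝ => (-x) ^ (-(5 : ℝ) / 4)) (-x) = _
      rw [indicator_of_notMem]
      intro h
      exact hx ⟨by linarith [h.2], by linarith [h.1]⟩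
  have h4 := (intervalIntegral.integrableOn_Ioo_rpow_iff one_pos).1 h3
  norm_num at h4

lemma G_intOn {δ : ℝ} (hδ : 0 < δ) : IntegrableOn G (Ioi δ) :=
  (integrableOn_Ioi_rpow_of_lt (a := -(9 : ℝ) / 4) (by norm_num) hδ).add rh_int.integrableOn

lemma dn_intOn {δ : ℝ} (hδ : 0 < δ) : IntegrableOn dn (Iio (-δ)) := by
  rw [← integrable_indicator_iff measurableSet_Iio]
  have h1 := G_intOn hδ
  rw [← integrable_indicator_iff measurableSet_Ioi] at h1
  refine h1.comp_neg.congr (Eventually.of_forall fun x => ?_)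
  change (Ioi δ).indicator G (-x) = (Iio (-δ)).indicator dn x
  by_cases hx : x < -δ
  · rw [indicator_of_mem (show x ∈ Iio (-δ) from hx), indicator_of_mem (show -x ∈ Ioi δ from by
      change δ < -x; linarith), dn_eq, indicator_of_mem (show -x ∈ Ioi (0 : ℝ) from by
      change 0 < -x; linarith)]
  · rw [indicator_of_notMem (show x ∉ Iio (-δ) from hx), indicator_of_notMem]
    intro h
    apply hx
    have : δ < -x := h
    linarith

lemma part4 : ContinuousOn (fun y => (nu (Iio (-y))).toReal) (Ioi 0) := by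
  have h1 : ∀ y : ℝ, 0 < y → (nu (Iio (-y))).toReal = ∫ x in Iio (-y), dn x := by
    intro y hy
    rw [nu_eq, withDensity_apply _ measurableSet_Iio,
      ← ofReal_integral_eq_lintegral_ofReal (dn_intOn hy)
        (Eventually.of_forall fun x => dn_nonneg x), ENNReal.toReal_ofReal]
    exact integral_nonneg fun x => dn_nonneg x
  intro y hy
  have hy' : 0 < y := hy
  have h2 := (dn_intOn (half_pos hy')).continuousOn_Iic_primitive_Iio
  have h3 : ContinuousAt (fun b => ∫ x in Iio b, dn x) (-y) :=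
    h2.continuousAt (Iic_mem_nhds (by linarith))
  have h4 : ContinuousAt (fun y => ∫ x in Iio (-y), dn x) y :=
    ContinuousAt.comp (f := fun y : ℝ => -y) (g := fun b => ∫ x in Iio b, dn x) h3
      continuous_neg.continuousAt
  refine (h4.congr ?_).continuousWithinAt
  filter_upwards [Ioi_mem_nhds hy'] with z hz
  exact (h1 z hz).symm

/-! ### the constant -/

/-- the integrand -/
noncomputable def ci (u : ℝ) : ℝ := (Real.exp (-u) - 1 + u) * u ^ (-(9 : ℝ) / 4)

lemma exp_lo (u : ℝ) (hu : 0 < u) : 0 < Real.exp (-u) - 1 + u := by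
  have h := Real.add_one_lt_exp (neg_ne_zero.2 hu.ne')
  linarith

lemma exp_hi (u : ℝ) (hu : 0 < u) : Real.exp (-u) - 1 + u ≤ u ∧ Real.exp (-u) - 1 + u ≤ u ^ 2 := by
  have h1 : Real.exp (-u) ≤ 1 := Real.exp_le_one_iff.2 (by linarith)
  refine ⟨by linarith, ?_⟩
  rcases le_or_gt u 1 with h | h
  · have h2 := Real.abs_exp_sub_one_sub_id_le (x := -u) (by rw [abs_neg, abs_of_pos hu]; exact h)
    have h3 := le_abs_self (Real.exp (-u) - 1 - -u)
    rw [neg_sq] at h2
    linarith
  · nlinarith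

lemma ci_int : IntegrableOn ci (Ioi 0) := by
  have h1 := rpow_int
  have h2 : IntegrableOn (fun z : ℝ => z ^ (-(5 : ℝ) / 4)) (Ioi 1) :=
    integrableOn_Ioi_rpow_of_lt (by norm_num) one_pos
  rw [← integrable_indicator_iff measurableSet_Ioi] at h1 h2
  rw [← integrable_indicator_iff measurableSet_Ioi]
  refine (h1.add h2).mono ?_ (Eventually.of_forall fun z => ?_)
  · apply Measurable.aestronglyMeasurable
    apply Measurable.indicator _ measurableSet_Ioi
    unfold ci
    fun_prop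
  · by_cases hz : 0 < z
    · rw [indicator_of_mem (show z ∈ Ioi (0 : ℝ) from hz), ci, Pi.add_apply,
        indicator_of_mem (show z ∈ Ioi (0 : ℝ) from hz)]
      have e1 := exp_lo z hz
      obtain ⟨e2, e3⟩ := exp_hi z hz
      have e4 : 0 ≤ z ^ (-(9 : ℝ) / 4) := Real.rpow_nonneg hz.le _
      rw [Real.norm_eq_abs, abs_of_nonneg (mul_nonneg e1.le e4)]
      refine le_trans ?_ (le_abs_self _)
      by_cases hz1 : 1 < z
      · rw [indicator_of_mem (show z ∈ Ioi (1 : ℝ) from hz1)]
        have e5 : z ^ (-(5 : ℝ) / 4) = z * z ^ (-(9 : ℝ) / 4) := by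
          conv_rhs => enter [1]; rw [← Real.rpow_one z]
          rw [← Real.rpow_add hz]
          norm_num
        rw [e5]
        have e6 : 0 ≤ z ^ (-(9 : ℝ) / 4) * min 1 (z ^ 2) :=
          mul_nonneg e4 (le_min zero_le_one (sq_nonneg z))
        have e7 := mul_le_mul_of_nonneg_right e2 e4
        linarith
      · rw [indicator_of_notMem (show z ∉ Ioi (1 : ℝ) from hz1), add_zero, min_eq_right (by nlinarith),
          mul_comm]
        exact mul_le_mul_of_nonneg_left e3 e4
    · rw [indicator_of_notMem (show z ∉ Ioi (0 : ℝ) from hz), norm_zero]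
      exact norm_nonneg _

lemma part5 : 0 < Cc := by
  have h : Cc = ∫ u in Ioi (0 : ℝ), ci u := rfl
  rw [h, setIntegral_pos_iff_support_of_nonneg_ae _ ci_int]
  · have h1 : Ioi (0 : ℝ) ⊆ Function.support ci ∩ Ioi 0 := by
      intro u hu
      refine ⟨?_, hu⟩
      rw [Function.mem_support]
      exact (mul_pos (exp_lo u hu) (Real.rpow_pos_of_pos hu _)).ne'
    refine lt_of_lt_of_le ?_ (measure_mono h1)
    rw [Real.volume_Ioi]
    exact ENNReal.zero_lt_top
  · filter_upwards [ae_restrict_mem measurableSet_Ioi] with u hu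
    exact (mul_pos (exp_lo u hu) (Real.rpow_pos_of_pos hu _)).le

lemma part6 (β : ℝ) (hβ : 0 < β) :
    ∫ x, (Real.exp (β * x) - 1 - (if -1 < x then β * x else 0)) ∂nu =
    Cc * β ^ ((5 : ℝ) / 4) - 4 * β + (∫ y, rh y * Real.exp (-(β * y))) - 4 := by
  rw [integral_nu]
  have e1 : ∀ z : ℝ, z ∈ Ioi (0 : ℝ) →
      G z * (Real.exp (β * -z) - 1 - (if -1 < -z then β * -z else 0)) =
      β ^ ((9 : ℝ) / 4) * ci (β * z) - (Ici (1 : ℝ)).indicator (fun z => β * z ^ (-(5 : ℝ) / 4)) z
        + (rh z * Real.exp (-(β * z)) - rh z) := by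
    intro z hz
    have hz' : 0 < z := hz
    have e2 : (β * z) ^ (-(9 : ℝ) / 4) = β ^ (-(9 : ℝ) / 4) * z ^ (-(9 : ℝ) / 4) :=
      Real.mul_rpow hβ.le hz'.le
    have e3 : β ^ ((9 : ℝ) / 4) * β ^ (-(9 : ℝ) / 4) = 1 := by
      rw [← Real.rpow_add hβ]
      norm_num
    have e4 : β ^ ((9 : ℝ) / 4) * ci (β * z) =
        (Real.exp (-(β * z)) - 1 + β * z) * z ^ (-(9 : ℝ) / 4) := by
      rw [ci, e2]
      linear_combination ((Real.exp (-(β * z)) - 1 + β * z) * z ^ (-(9 : ℝ) / 4)) * e3
    rw [e4, G, mul_neg]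
    by_cases h1 : z < 1
    · rw [if_pos (by linarith), rh_zero h1.le, indicator_of_notMem (show z ∉ Ici (1 : ℝ) from not_le.2 h1)]
      ring
    · have h1' : 1 ≤ z := not_lt.1 h1
      rw [if_neg (by linarith), indicator_of_mem (show z ∈ Ici (1 : ℝ) from h1')]
      have e5 : z ^ (-(5 : ℝ) / 4) = z * z ^ (-(9 : ℝ) / 4) := by
        conv_rhs => enter [1]; rw [← Real.rpow_one z]
        rw [← Real.rpow_add hz']
        norm_num
      rw [e5]
      ring
  rw [setIntegral_congr_fun measurableSet_Ioi e1]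
  have i1 : IntegrableOn (fun z => β ^ ((9 : ℝ) / 4) * ci (β * z)) (Ioi 0) := by
    refine Integrable.const_mul ?_ _
    have h := (integrableOn_Ioi_comp_mul_left_iff ci 0 hβ).2 (by rw [mul_zero]; exact ci_int)
    exact h
  have i2' : IntegrableOn (fun z : ℝ => β * z ^ (-(5 : ℝ) / 4)) (Ici 1) := by
    rw [integrableOn_Ici_iff_integrableOn_Ioi]
    exact (integrableOn_Ioi_rpow_of_lt (by norm_num) one_pos).const_mul β
  have i2 : Integrable ((Ici (1 : ℝ)).indicator (fun z => β * z ^ (-(5 : ℝ) / 4))) := by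
    rw [integrable_indicator_iff measurableSet_Ici]
    exact i2'
  have i3 : Integrable fun z => rh z * Real.exp (-(β * z)) := by
    refine rh_bdd_int (by fun_prop) fun y hy => ?_
    rw [abs_of_pos (Real.exp_pos _)]
    exact Real.exp_le_one_iff.2 (by nlinarith)
  have k1 : IntegrableOn (fun z => β ^ ((9 : ℝ) / 4) * ci (β * z) -
      (Ici (1 : ℝ)).indicator (fun z => β * z ^ (-(5 : ℝ) / 4)) z) (Ioi 0) :=
    i1.sub i2.integrableOn
  have k2 : IntegrableOn (fun z => rh z * Real.exp (-(β * z)) - rh z) (Ioi 0) :=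
    (i3.sub rh_int).integrableOn
  rw [integral_add k1 k2, integral_sub i1 i2.integrableOn]
  have j1 : ∫ z in Ioi (0 : ℝ), β ^ ((9 : ℝ) / 4) * ci (β * z) = Cc * β ^ ((5 : ℝ) / 4) := by
    rw [integral_const_mul, integral_comp_mul_left_Ioi ci 0 hβ, mul_zero]
    have h : Cc = ∫ u in Ioi (0 : ℝ), ci u := rfl
    have h2 : β ^ ((9 : ℝ) / 4) = β ^ ((5 : ℝ) / 4) * β := by
      conv_rhs => enter [2]; rw [← Real.rpow_one β]
      rw [← Real.rpow_add hβ]
      norm_num
    rw [← h, h2, smul_eq_mul]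
    field_simp
  have j2 : ∫ z in Ioi (0 : ℝ), (Ici (1 : ℝ)).indicator (fun z => β * z ^ (-(5 : ℝ) / 4)) z =
      4 * β := by
    rw [setIntegral_indicator measurableSet_Ici]
    have h : Ioi (0 : ℝ) ∩ Ici 1 = Ici 1 := by
      ext z
      simp only [mem_inter_iff, mem_Ioi, mem_Ici, and_iff_right_iff_imp]
      intro h
      linarith
    rw [h, integral_Ici_eq_integral_Ioi, integral_const_mul,
      integral_Ioi_rpow_of_lt (by norm_num) one_pos]
    norm_num
    ring
  have j3 : ∫ z in Ioi (0 : ℝ), (rh z * Real.exp (-(β * z)) - rh z) =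
      (∫ y, rh y * Real.exp (-(β * y))) - 4 := by
    rw [setIntegral_eq_integral_of_forall_compl_eq_zero, integral_sub i3 rh_int, rh_integral]
    intro z hz
    have h : z ≤ 0 := not_lt.1 hz
    rw [rh_zero (by linarith)]
    ring
  rw [j1, j2, j3]
  ring

theorem nu_facts : S_NU := ⟨part1, part2, part3, part4, part5, part6⟩

end Pool.Agent.W924.DO
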